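import Pool.Agent.Lib_helper35.DC.Main

set_option autoImplicit false

/-!
# MP_81bc02_gt, DoubleCosets

Precise asymptotics of the double coset growth of subgroups with null limit sets.
-/

namespace Pool.Agent.Results.MP_81bc02_gt.DoubleCosets

open Filter Topology Pool.Agent.DC

theorem result {G X M : Type} [Group G] [MetricSpace X] [MulAction G X] [MetricSpace M]
    [MeasurableSpace M] [BorelSpace M] [MulAction G M] (T : TD G X M) (H K : Subgroup G)
    (hH : T.NullLim H) (hK : T.NullLim K)
    (hZ : ∀ g : G, (∀ x : X, g • x = x) → g ∈ H ∧ g ∈ K) :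
    ∃ L : ℝ, 0 < L ∧ Tendsto (fun r => (T.gr H K r : ℝ) / Real.exp (T.h * r)) atTop (𝓝 L) :=
  main T H K hH hK hZ

end Pool.Agent.Results.MP_81bc02_gt.DoubleCosets
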